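import Mathlib

/-!
Definitions for C-principality and closure under the transformation T.
-/

namespace Pool.Agent.V11232.CT

/-- An agsm with input alphabet `Fin k`, output alphabet `Fin l` and state set `Fin n`. -/
structure Agsm (k l : ℕ) : Type where
  n : ℕ
  q0 : Fin n
  final : Fin n → Bool
  t : Fin n → Fin k → Fin n
  h : Fin n → Fin k → List (Fin l)

/-- The extended transition map. -/
def Agsm.run {k l : ℕ} (g : Agsm k l) : Fin g.n → List (Fin k) → Fin g.n
  | q, [] => q
  | q, x :: w => g.run (g.t q x) w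

/-- The extended output map. -/
def Agsm.out {k l : ℕ} (g : Agsm k l) : Fin g.n → List (Fin k) → List (Fin l)
  | _, [] => []
  | q, x :: w => g.h q x ++ g.out (g.t q x) w

/-- The inverse image of a language under an agsm. -/
def Agsm.inv {k l : ℕ} (g : Agsm k l) (M : Language (Fin l)) : Language (Fin k) :=
  {w | g.final (g.run g.q0 w) = true ∧ g.out g.q0 w ∈ M}

/-- A family of languages over the alphabets `Fin k`. -/
abbrev Fam : Type := (k : ℕ) → Set (Language (Fin k))

/-- A set of (unary) operations, given by the relation between argument and result. -/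
abbrev Ops : Type := (l k : ℕ) → Language (Fin l) → Language (Fin k) → Prop

/-- The operations `agsm⁻¹`. -/
def opAgsm : Ops := fun _ _ M L => ∃ g : Agsm _ _, L = g.inv M

/-- The set `C` of operations: inverse homomorphisms and intersection with regular sets. -/
inductive opC : Ops
  | invHom {l k : ℕ} (φ : Fin k → List (Fin l)) (M : Language (Fin l)) (L : Language (Fin k)) :
      L = {w : List (Fin k) | w.flatMap φ ∈ M} → opC l k M L
  | interReg {l : ℕ} (M R : Language (Fin l)) : R.IsRegular → opC l l M (M ⊓ R)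

/-- Closure of a family under operations. -/
def Closed (E : Ops) (F : Fam) : Prop :=
  ∀ l k (M : Language (Fin l)) (L : Language (Fin k)), M ∈ F l → E l k M L → L ∈ F k

/-- The languages obtained from `M0` by finitely many operations. -/
inductive Reach (E : Ops) {l0 : ℕ} (M0 : Language (Fin l0)) : (k : ℕ) → Language (Fin k) → Prop
  | base : Reach E M0 l0 M0
  | step {l k : ℕ} {M : Language (Fin l)} {L : Language (Fin k)} :
      Reach E M0 l M → E l k M L → Reach E M0 k L

/-- `E`-principal families. -/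
def Principal (E : Ops) (F : Fam) : Prop :=
  Closed E F ∧ ∃ (l0 : ℕ) (M0 : Language (Fin l0)), M0 ∈ F l0 ∧ ∀ k, ∀ L ∈ F k, Reach E M0 k L

/-- The old letters in the enlarged alphabet. -/
def old {k : ℕ} (x : Fin k) : Fin (k + 3) := Fin.castAdd 3 x
/-- The new letter `y`. -/
def ly (k : ℕ) : Fin (k + 3) := Fin.natAdd k 0
/-- The new letter `ȳ`. -/
def lyb (k : ℕ) : Fin (k + 3) := Fin.natAdd k 1
/-- The new letter `z`. -/
def lz (k : ℕ) : Fin (k + 3) := Fin.natAdd k 2

/-- The words derived from the nonterminal `v_i` of the grammar of `A`. -/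
inductive Der (k : ℕ) : Fin 4 → List (Fin (k + 3)) → Prop
  | v0_v1 {w} : Der k 1 w → Der k 0 w
  | v0_eps : Der k 0 []
  | v1_y {w} : Der k 2 w → Der k 1 ([ly k] ++ w ++ [lyb k])
  | v1_v3 {w} : Der k 3 w → Der k 1 (w ++ [lz k])
  | v1_z : Der k 1 [lz k]
  | v2_x {w} (x : Fin k) : Der k 2 w → Der k 2 (w ++ [old x])
  | v2_y {w} : Der k 2 w → Der k 2 (w ++ [ly k])
  | v2_v1 {w} : Der k 1 w → Der k 2 w
  | v3_x {w} (x : Fin k) : Der k 3 w → Der k 3 (w ++ [old x])
  | v3_y {w} : Der k 3 w → Der k 3 (w ++ [ly k])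
  | v3_yb {w} : Der k 3 w → Der k 3 (w ++ [lyb k])
  | v3_base : Der k 3 [lyb k]

/-- The context-free language `A`. -/
def LA (k : ℕ) : Language (Fin (k + 3)) := {w | Der k 0 w}

/-- The language `X` of one-letter words over the old alphabet. -/
def LX (k : ℕ) : Language (Fin (k + 3)) := {w | ∃ x : Fin k, w = [old x]}

/-- The language `ȳ X* y⁺`. -/
def LU (k : ℕ) : Language (Fin (k + 3)) :=
  ({[lyb k]} : Language (Fin (k + 3))) * KStar.kstar (LX k) * {[ly k]} *
    KStar.kstar ({[ly k]} : Language (Fin (k + 3)))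

/-- First reading of `B`: `{y} ∪ (ȳ X* y⁺)*`. -/
def LB (k : ℕ) : Language (Fin (k + 3)) := {[ly k]} + KStar.kstar (LU k)

/-- Second reading of `B`: `y⁺ (ȳ X* y⁺)*`. -/
def LB' (k : ℕ) : Language (Fin (k + 3)) :=
  {[ly k]} * KStar.kstar ({[ly k]} : Language (Fin (k + 3))) * KStar.kstar (LU k)

/-- `Spread u v`: `u = f₁ ⋯ fₙ` with `n ≥ 1` and `v ∈ f₁ A f₂ A ⋯ A fₙ`. -/
inductive Spread {k : ℕ} : List (Fin k) → List (Fin (k + 3)) → Prop
  | one (f : Fin k) : Spread [f] [old f]
  | cons (f : Fin k) {α v : List (Fin (k + 3))} {u : List (Fin k)} :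
      α ∈ LA k → Spread u v → Spread (f :: u) ([old f] ++ α ++ v)

/-- The transformation `T`, for a given language `B`. -/
def TT (B : (k : ℕ) → Language (Fin (k + 3))) {k : ℕ} (L : Language (Fin k)) :
    Language (Fin (k + 3)) :=
  {w | ∃ u v β, u ∈ L ∧ Spread u v ∧ β ∈ B k ∧ w = [lz k, lyb k] ++ v ++ β}

end Pool.Agent.V11232.CT
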