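import Pool.Agent.V11232.CT.Gsm

namespace Pool.Agent.V11232.CT

/-- Tokens `b a^(2^e) c`. -/
def tok (e : ℕ) : List (Fin 3) := 1 :: (List.replicate (2 ^ e) 0 ++ [2])

/-- Encoding of lists of exponents. -/
def enc (l : List ℕ) : List (Fin 3) := l.flatMap tok

@[simp] theorem enc_nil : enc [] = [] := rfl
theorem enc_cons (e : ℕ) (l : List ℕ) : enc (e :: l) = tok e ++ enc l := by simp [enc]
theorem enc_append (l l' : List ℕ) : enc (l ++ l') = enc l ++ enc l' := by simp [enc]
theorem enc_pw (l : List ℕ) (n : ℕ) : enc (pw l n) = pw (enc l) n := by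
  induction n with
  | zero => rfl
  | succ n ih => rw [pw_succ, pw_succ, enc_append, ih]

theorem rep_inj (m n : ℕ) (u v : List (Fin 3))
    (h : List.replicate m (0 : Fin 3) ++ (2 :: u) = List.replicate n 0 ++ (2 :: v)) :
    m = n ∧ u = v := by
  induction m generalizing n with
  | zero =>
    cases n with
    | zero => simpa using h
    | succ n => simp [List.replicate_succ] at h
  | succ m ih =>
    cases n with
    | zero => simp [List.replicate_succ] at h
    | succ n =>
      simp [List.replicate_succ] at h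
      have := ih n h
      exact ⟨by omega, this.2⟩

theorem tok_inj {e e' : ℕ} {u v : List (Fin 3)} (h : tok e ++ u = tok e' ++ v) :
    e = e' ∧ u = v := by
  simp only [tok, List.cons_append, List.append_assoc, List.cons.injEq, true_and] at h
  have := rep_inj _ _ _ _ (by simpa using h)
  exact ⟨Nat.pow_right_injective (le_refl 2) this.1, this.2⟩

theorem enc_inj : ∀ {l l' : List ℕ}, enc l = enc l' → l = l'
  | [], [], _ => rfl
  | [], e :: l, h => by simp [enc_cons, tok] at h
  | e :: l, [], h => by simp [enc_cons, tok] at h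
  | e :: l, e' :: l', h => by
    rw [enc_cons, enc_cons] at h
    have := tok_inj h
    rw [this.1, enc_inj this.2]

theorem cut (l : List ℕ) (X Y : List (Fin 3)) (h : enc l = X ++ ([2] ++ Y)) :
    ∃ l1 l2, l = l1 ++ l2 ∧ enc l1 = X ++ [2] ∧ enc l2 = Y := by
  induction l generalizing X with
  | nil => simp at h
  | cons e l ih =>
    rw [enc_cons] at h
    rcases List.append_eq_append_iff.mp h with ⟨a, h1, h2⟩ | ⟨c, h1, h2⟩
    · obtain ⟨l1, l2, h3, h4, h5⟩ := ih a h2
      refine ⟨e :: l1, l2, by rw [h3]; rfl, ?_, h5⟩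
      rw [enc_cons, h4, h1]; simp
    · cases c with
      | nil =>
        simp at h1 h2
        obtain ⟨l1, l2, h3, h4, h5⟩ := ih [] (by simpa using h2.symm)
        refine ⟨e :: l1, l2, by rw [h3]; rfl, ?_, h5⟩
        rw [enc_cons, h4, h1]; simp
      | cons x c =>
        simp only [List.cons_append, List.nil_append, List.cons.injEq] at h2
        obtain ⟨rfl, h2⟩ := h2
        have hX : X = 1 :: (X.tail) ∧ X.tail ++ 2 :: c = List.replicate (2^e) 0 ++ [2] := by
          cases X with
          | nil => simp [tok] at h1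
          | cons y X => simp [tok] at h1; simp [h1]
        -- locate the letter 2
        have key : ∀ (m : ℕ) (Z c : List (Fin 3)),
            Z ++ 2 :: c = List.replicate m 0 ++ [2] → c = [] := by
          intro m
          induction m with
          | zero =>
            intro Z c hz
            cases Z with
            | nil => simpa using hz
            | cons z Z => simp at hz
          | succ m ihm =>
            intro Z c hz
            cases Z with
            | nil => simp [List.replicate_succ] at hz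
            | cons z Z =>
              simp only [List.replicate_succ, List.cons_append, List.cons.injEq] at hz
              exact ihm Z c hz.2
        have hc := key _ _ _ hX.2
        subst hc
        refine ⟨[e], l, rfl, ?_, ?_⟩
        · rw [enc_cons, h1]; simp
        · rw [h2]; rfl

/-- Words that are concatenations of tokens. -/
def Good (W : List (Fin 3)) : Prop := ∃ l, enc l = W

theorem good_of_cut {X Y : List (Fin 3)} (h : Good (X ++ ([2] ++ Y))) : Good Y := by
  obtain ⟨l, hl⟩ := h
  obtain ⟨l1, l2, -, -, h2⟩ := cut l X Y hl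
  exact ⟨l2, h2⟩

/-- Position of the first letter `c`. -/
def kap (u : List (Fin 3)) : ℕ := u.findIdx (fun x => decide (x = 2))

theorem kap_append_of_not_mem {D : List (Fin 3)} (hD : (2 : Fin 3) ∉ D) (Y : List (Fin 3)) :
    kap (D ++ Y) = D.length + kap Y := by
  induction D with
  | nil => simp
  | cons x D ih =>
    simp only [List.mem_cons, not_or] at hD
    have := ih hD.2
    unfold kap at this ⊢
    rw [List.cons_append, List.findIdx_cons, this]
    have hx : decide (x = 2) = false := by simpa using fun h => hD.1 h.symm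
    rw [hx]; simp; omega

theorem kap_append_of_mem {D : List (Fin 3)} (hD : (2 : Fin 3) ∈ D) (Y : List (Fin 3)) :
    kap (D ++ Y) = kap D := by
  induction D with
  | nil => simp at hD
  | cons x D ih =>
    by_cases hx : x = 2
    · unfold kap; rw [List.cons_append, List.findIdx_cons, List.findIdx_cons]; simp [hx]
    · have h2 : (2 : Fin 3) ∈ D := by
        rcases List.mem_cons.mp hD with h | h
        · exact absurd h.symm hx
        · exact h
      have := ih h2
      unfold kap at this ⊢
      rw [List.cons_append, List.findIdx_cons, List.findIdx_cons, this]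

theorem kap_good {Y : List (Fin 3)} (h : Good Y) (hY : Y ≠ []) : ∃ e, kap Y = 2 ^ e + 1 := by
  obtain ⟨l, rfl⟩ := h
  cases l with
  | nil => simp at hY
  | cons e l =>
    refine ⟨e, ?_⟩
    have h1 : enc (e :: l) = (1 :: List.replicate (2 ^ e) 0) ++ (2 :: enc l) := by
      rw [enc_cons]; simp [tok]
    rw [h1, kap_append_of_not_mem (by simp [List.mem_replicate])]
    simp [kap, List.findIdx_cons]

theorem not_mem_pw {u : List (Fin 3)} (h : (2 : Fin 3) ∉ u) (n : ℕ) : (2 : Fin 3) ∉ pw u n := by
  induction n with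
  | zero => simp
  | succ n ih => rw [pw_succ]; simp [h, ih]

/-- Powers of two contain no affine progression with three terms. -/
theorem no_ap {c d e0 e1 e2 : ℕ} (hd : 0 < d) (h0 : 2 ^ e0 = c) (h1 : 2 ^ e1 = c + d)
    (h2 : 2 ^ e2 = c + 2 * d) : False := by
  have h12 : e1 < e2 := by
    by_contra hcon
    have := Nat.pow_le_pow_right (n := 2) (by norm_num) (not_lt.mp hcon)
    omega
  have := Nat.pow_le_pow_right (n := 2) (by norm_num) (show e1 + 1 ≤ e2 from h12)
  rw [pow_succ] at this
  have h0' : 0 < 2 ^ e0 := by positivity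
  omega

theorem affine (D u : List (Fin 3)) (Y : ℕ → List (Fin 3)) (hD : (2 : Fin 3) ∉ D)
    (hu : (2 : Fin 3) ∉ u) (hu0 : u ≠ []) (hg : ∀ n, Good (D ++ pw u (n + 1) ++ Y n))
    (κ0 q : ℕ) (hκ : ∀ n, kap (Y n) = κ0 + q * n) : False := by
  have key : ∀ n, ∃ e, D.length + (n + 1) * u.length + (κ0 + q * n) = 2 ^ e + 1 := by
    intro n
    have hne : D ++ pw u (n + 1) ++ Y n ≠ [] := by
      rw [pw_succ]; simp [hu0]
    obtain ⟨e, he⟩ := kap_good (hg n) hne
    refine ⟨e, ?_⟩
    rw [← he, List.append_assoc, kap_append_of_not_mem hD,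
      kap_append_of_not_mem (not_mem_pw hu _), pw_length, hκ n]
    ring
  obtain ⟨e0, h0⟩ := key 0
  obtain ⟨e1, h1⟩ := key 1
  obtain ⟨e2, h2⟩ := key 2
  have hul : 0 < u.length := List.length_pos_iff.mpr hu0
  apply no_ap (c := 2 ^ e0) (d := u.length + q) (by omega) rfl (e1 := e1) (e2 := e2)
  · omega
  · omega

theorem kap_tail (B δ C : List (Fin 3)) :
    ∃ κ0 q, ∀ n, kap (B ++ pw δ (n + 1) ++ C) = κ0 + q * n := by
  by_cases hB : (2 : Fin 3) ∈ B
  · exact ⟨kap B, 0, fun n => by rw [List.append_assoc, kap_append_of_mem hB]; ring⟩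
  by_cases hδ : (2 : Fin 3) ∈ δ
  · refine ⟨B.length + kap δ, 0, fun n => ?_⟩
    rw [List.append_assoc, kap_append_of_not_mem hB, pw_succ, List.append_assoc,
      kap_append_of_mem hδ]; ring
  · refine ⟨B.length + δ.length + kap C, δ.length, fun n => ?_⟩
    rw [List.append_assoc, kap_append_of_not_mem hB, kap_append_of_not_mem (not_mem_pw hδ _),
      pw_length]; ring

theorem last_split (A : List (Fin 3)) : ∃ A1 A2, A = A1 ++ A2 ∧ (2 : Fin 3) ∉ A2 ∧
    (A1 = [] ∨ ∃ A3, A1 = A3 ++ [2]) := by
  induction A using List.reverseRecOn with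
  | nil => exact ⟨[], [], rfl, by simp, Or.inl rfl⟩
  | append_singleton A x ih =>
    by_cases hx : x = 2
    · exact ⟨A ++ [x], [], by simp, by simp, Or.inr ⟨A, by rw [hx]⟩⟩
    · obtain ⟨A1, A2, h1, h2, h3⟩ := ih
      exact ⟨A1, A2 ++ [x], by rw [h1]; simp, by simp [h2]; exact fun h => hx h.symm, h3⟩

/-- The two pumped words contain the letter `c`. -/
theorem both_mem (A β B δ C : List (Fin 3)) (hβ : β ≠ []) (hδ : δ ≠ [])
    (hg : ∀ n, Good (A ++ pw β (n + 1) ++ B ++ pw δ (n + 1) ++ C)) :
    (2 : Fin 3) ∈ β ∧ (2 : Fin 3) ∈ δ := by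
  have hβ2 : (2 : Fin 3) ∈ β := by
    by_contra hcon
    obtain ⟨A1, A2, h1, h2, h3⟩ := last_split A
    obtain ⟨κ0, q, hκ⟩ := kap_tail B δ C
    refine affine A2 β (fun n => B ++ pw δ (n + 1) ++ C) h2 hcon hβ ?_ κ0 q hκ
    intro n
    have := hg n
    rw [h1] at this
    rcases h3 with h3 | ⟨A3, h3⟩
    · rw [h3] at this; simpa using this
    · rw [h3] at this
      refine good_of_cut (X := A3) ?_
      simpa using this
  refine ⟨hβ2, ?_⟩
  by_contra hcon
  obtain ⟨s, t, hst⟩ := List.append_of_mem hβ2
  obtain ⟨D1, D2, h1, h2, h3⟩ := last_split (t ++ B)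
  -- cut after the last c in β^(n+1) B
  have hsplit : ∀ n, ∃ X, A ++ pw β (n + 1) ++ B = X ++ [2] ++ D2 := by
    intro n
    have e1 : A ++ pw β (n + 1) ++ B = A ++ pw β n ++ s ++ [2] ++ (t ++ B) := by
      rw [pw_add, pw_one]
      conv_lhs => rw [hst]
      have : pw (s ++ 2 :: t) n = pw β n := by rw [hst]
      rw [this]; simp
    rcases h3 with h3 | ⟨A3, h3⟩
    · refine ⟨A ++ pw β n ++ s, ?_⟩
      rw [e1, h1, h3]; simp
    · refine ⟨A ++ pw β n ++ s ++ [2] ++ A3, ?_⟩
      rw [e1, h1, h3]; simp
  refine affine D2 δ (fun _ => C) h2 hcon hδ ?_ (kap C) 0 (fun n => by ring)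
  intro n
  obtain ⟨X, hX⟩ := hsplit n
  have := hg n
  rw [hX] at this
  refine good_of_cut (X := X) ?_
  simpa using this

end Pool.Agent.V11232.CT
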