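import Pool.Agent.V11232.CT.Basic

namespace Pool.Agent.V11232.CT

theorem run_append {k l : ℕ} (g : Agsm k l) (q : Fin g.n) (u v : List (Fin k)) :
    g.run q (u ++ v) = g.run (g.run q u) v := by
  induction u generalizing q with
  | nil => rfl
  | cons x u ih => simp [Agsm.run, ih]

theorem out_append {k l : ℕ} (g : Agsm k l) (q : Fin g.n) (u v : List (Fin k)) :
    g.out q (u ++ v) = g.out q u ++ g.out (g.run q u) v := by
  induction u generalizing q with
  | nil => rfl
  | cons x u ih => simp [Agsm.out, Agsm.run, ih]

/-- Composition of agsms. -/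
def comp {k l m : ℕ} (g : Agsm k l) (f : Agsm l m) : Agsm k m where
  n := g.n * f.n
  q0 := finProdFinEquiv (g.q0, f.q0)
  final s := g.final (finProdFinEquiv.symm s).1 && f.final (finProdFinEquiv.symm s).2
  t s x := finProdFinEquiv (g.t (finProdFinEquiv.symm s).1 x,
    f.run (finProdFinEquiv.symm s).2 (g.h (finProdFinEquiv.symm s).1 x))
  h s x := f.out (finProdFinEquiv.symm s).2 (g.h (finProdFinEquiv.symm s).1 x)

theorem comp_run {k l m : ℕ} (g : Agsm k l) (f : Agsm l m) (p : Fin g.n) (q : Fin f.n)
    (w : List (Fin k)) :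
    (comp g f).run (finProdFinEquiv (p, q)) w = finProdFinEquiv (g.run p w, f.run q (g.out p w)) := by
  induction w generalizing p q with
  | nil => rfl
  | cons x w ih =>
    have : (comp g f).run (finProdFinEquiv (p, q)) (x :: w) =
        (comp g f).run ((comp g f).t (finProdFinEquiv (p, q)) x) w := rfl
    rw [this]
    have h2 : (comp g f).t (finProdFinEquiv (p, q)) x =
        finProdFinEquiv (g.t p x, f.run q (g.h p x)) := by
      simp [comp]
    rw [h2, ih]
    simp [Agsm.run, Agsm.out, run_append]

theorem comp_out {k l m : ℕ} (g : Agsm k l) (f : Agsm l m) (p : Fin g.n) (q : Fin f.n)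
    (w : List (Fin k)) :
    (comp g f).out (finProdFinEquiv (p, q)) w = f.out q (g.out p w) := by
  induction w generalizing p q with
  | nil => rfl
  | cons x w ih =>
    have : (comp g f).out (finProdFinEquiv (p, q)) (x :: w) =
        (comp g f).h (finProdFinEquiv (p, q)) x ++
        (comp g f).out ((comp g f).t (finProdFinEquiv (p, q)) x) w := rfl
    rw [this]
    have h2 : (comp g f).t (finProdFinEquiv (p, q)) x =
        finProdFinEquiv (g.t p x, f.run q (g.h p x)) := by
      simp [comp]
    have h3 : (comp g f).h (finProdFinEquiv (p, q)) x = f.out q (g.h p x) := by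
      simp [comp]
    rw [h2, ih, h3]
    simp [Agsm.out, out_append]

theorem comp_inv {k l m : ℕ} (g : Agsm k l) (f : Agsm l m) (M : Language (Fin m)) :
    (comp g f).inv M = g.inv (f.inv M) := by
  ext w
  have h0 : (comp g f).q0 = finProdFinEquiv (g.q0, f.q0) := rfl
  have h1 : ∀ s, (comp g f).final s =
    (g.final (finProdFinEquiv.symm s).1 && f.final (finProdFinEquiv.symm s).2) := fun s => rfl
  change ((comp g f).final ((comp g f).run (comp g f).q0 w) = true ∧
      (comp g f).out (comp g f).q0 w ∈ M) ↔
    (g.final (g.run g.q0 w) = true ∧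
      (f.final (f.run f.q0 (g.out g.q0 w)) = true ∧ f.out f.q0 (g.out g.q0 w) ∈ M))
  rw [h0, comp_run, comp_out, h1]
  simp [and_assoc]

/-- A homomorphism as an agsm with one state. -/
def homG {k l : ℕ} (φ : Fin k → List (Fin l)) : Agsm k l where
  n := 1
  q0 := 0
  final _ := true
  t _ _ := 0
  h _ x := φ x

theorem homG_out {k l : ℕ} (φ : Fin k → List (Fin l)) (q : Fin 1) (w : List (Fin k)) :
    (homG φ).out q w = w.flatMap φ := by
  induction w generalizing q with
  | nil => rfl
  | cons x w ih =>
    have : (homG φ).out q (x :: w) = φ x ++ (homG φ).out ((homG φ).t q x) w := rfl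
    rw [this]
    have h2 := ih ((homG φ).t q x)
    rw [h2]; simp

theorem homG_inv {k l : ℕ} (φ : Fin k → List (Fin l)) (M : Language (Fin l)) :
    (homG φ).inv M = {w : List (Fin k) | w.flatMap φ ∈ M} := by
  ext w
  change ((homG φ).final ((homG φ).run (homG φ).q0 w) = true ∧ (homG φ).out (homG φ).q0 w ∈ M) ↔
    w.flatMap φ ∈ M
  rw [homG_out]
  simp [homG]

/-- The identity restricted to a regular set as an agsm. -/
noncomputable def regG {l : ℕ} {σ : Type} [Fintype σ] (D : DFA (Fin l) σ) : Agsm l l where
  n := Fintype.card σ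
  q0 := Fintype.equivFin σ D.start
  final s := by classical exact decide ((Fintype.equivFin σ).symm s ∈ D.accept)
  t s x := Fintype.equivFin σ (D.step ((Fintype.equivFin σ).symm s) x)
  h _ x := [x]

theorem regG_run {l : ℕ} {σ : Type} [Fintype σ] (D : DFA (Fin l) σ) (q : σ) (w : List (Fin l)) :
    (regG D).run (Fintype.equivFin σ q) w = Fintype.equivFin σ (D.evalFrom q w) := by
  induction w generalizing q with
  | nil => rfl
  | cons x w ih =>
    have h1 : (regG D).run (Fintype.equivFin σ q) (x :: w) =
      (regG D).run ((regG D).t (Fintype.equivFin σ q) x) w := rfl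
    have h2 : (regG D).t (Fintype.equivFin σ q) x = Fintype.equivFin σ (D.step q x) := by
      simp [regG]
    rw [h1, h2, ih]
    simp [DFA.evalFrom]

theorem regG_out {l : ℕ} {σ : Type} [Fintype σ] (D : DFA (Fin l) σ) (q : Fin (regG D).n)
    (w : List (Fin l)) : (regG D).out q w = w := by
  induction w generalizing q with
  | nil => rfl
  | cons x w ih =>
    have h1 : (regG D).out q (x :: w) = [x] ++ (regG D).out ((regG D).t q x) w := rfl
    rw [h1, ih]; rfl

theorem regG_inv {l : ℕ} {σ : Type} [Fintype σ] (D : DFA (Fin l) σ) (M : Language (Fin l)) :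
    (regG D).inv M = M ⊓ D.accepts := by
  ext w
  change ((regG D).final ((regG D).run (regG D).q0 w) = true ∧ (regG D).out (regG D).q0 w ∈ M) ↔
    (w ∈ M ∧ w ∈ D.accepts)
  have h0 : (regG D).q0 = Fintype.equivFin σ D.start := rfl
  have h1 : ∀ s, (regG D).final (Fintype.equivFin σ s) = true ↔ s ∈ D.accept := by
    intro s; simp [regG]
  rw [regG_out, h0, regG_run, h1]
  constructor
  · rintro ⟨a, b⟩; exact ⟨b, a⟩
  · rintro ⟨a, b⟩; exact ⟨b, a⟩

theorem closed_of_agsm (F : Fam) (hF : Closed opAgsm F) : Closed opC F := by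
  intro l k M L hM hE
  cases hE with
  | invHom φ _ _ h =>
    exact hF _ _ M L hM ⟨homG φ, by rw [homG_inv, h]⟩
  | interReg _ R hR =>
    obtain ⟨σ, _, D, hD⟩ := hR
    exact hF _ _ M _ hM ⟨regG D, by rw [regG_inv, hD]⟩

/-- Powers of a word. -/
def pw {α : Type} (u : List α) (n : ℕ) : List α := (List.replicate n u).flatten

@[simp] theorem pw_zero {α : Type} (u : List α) : pw u 0 = [] := rfl
theorem pw_succ {α : Type} (u : List α) (n : ℕ) : pw u (n + 1) = u ++ pw u n := by
  simp [pw, List.replicate_succ]
theorem pw_add {α : Type} (u : List α) (m n : ℕ) : pw u (m + n) = pw u m ++ pw u n := by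
  induction m with
  | zero => simp
  | succ m ih => rw [Nat.succ_add, pw_succ, ih, pw_succ]; simp
@[simp] theorem pw_one {α : Type} (u : List α) : pw u 1 = u := by simp [pw]
theorem pw_mul {α : Type} (u : List α) (m n : ℕ) : pw u (m * n) = pw (pw u m) n := by
  induction n with
  | zero => simp
  | succ n ih => rw [Nat.mul_succ, pw_add, ih, pw_add, pw_one]
theorem pw_length {α : Type} (u : List α) (n : ℕ) : (pw u n).length = n * u.length := by
  induction n with
  | zero => simp
  | succ n ih => rw [pw_succ, List.length_append, ih]; ring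
theorem pw_nil {α : Type} (n : ℕ) : pw ([] : List α) n = [] := by
  induction n with
  | zero => rfl
  | succ n ih => rw [pw_succ, ih]; rfl
theorem pw_map {α β : Type} (f : α → β) (u : List α) (n : ℕ) : (pw u n).map f = pw (u.map f) n := by
  induction n with
  | zero => rfl
  | succ n ih => rw [pw_succ, pw_succ, List.map_append, ih]
theorem pw_rot {α : Type} (p q : List α) (n : ℕ) :
    pw (p ++ q) (n + 1) = p ++ pw (q ++ p) n ++ q := by
  induction n with
  | zero => simp
  | succ n ih => rw [pw_succ, ih, pw_succ]; simp [List.append_assoc]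

/-- Eventual periodicity with a uniform period. -/
theorem iterate_period {n : ℕ} (τ : Fin n → Fin n) (s : Fin n) (m : ℕ) :
    τ^[n + n.factorial * m] s = τ^[n] s := by
  obtain ⟨a, b, hne, hab⟩ : ∃ a b : Fin (n + 1), a ≠ b ∧ τ^[a] s = τ^[b] s := by
    by_contra hcon
    push Not at hcon
    have hinj : Function.Injective (fun a : Fin (n + 1) => τ^[a] s) := by
      intro a b h
      by_contra hne
      exact hcon a b hne h
    have := Fintype.card_le_of_injective _ hinj
    simp at this
  wlog hlt : a < b generalizing a b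
  · exact this b a hne.symm hab.symm (lt_of_le_of_ne (not_lt.mp hlt) hne.symm)
  have hlt' : (a : ℕ) < b := hlt
  set p := (b : ℕ) - a with hp
  have hp1 : 1 ≤ p := by omega
  have hpn : p ≤ n := by have := b.2; omega
  have hba : (b : ℕ) = p + a := by omega
  have hper : ∀ j, τ^[p * j + a] s = τ^[a] s := by
    intro j
    induction j with
    | zero => simp
    | succ j ih =>
      have : p * (j + 1) + a = p * j + b := by rw [hba]; ring
      rw [this, Function.iterate_add_apply, ← hab, ← Function.iterate_add_apply, ih]
  obtain ⟨c, hc⟩ : p ∣ n.factorial := Nat.dvd_factorial hp1 hpn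
  have han : (a : ℕ) ≤ n := by have := a.2; omega
  have h1 : n + n.factorial * m = (n - a) + (p * (c * m) + a) := by
    rw [hc]; 
    have : p * c * m = p * (c * m) := by ring
    omega
  rw [h1, Function.iterate_add_apply, hper, ← Function.iterate_add_apply]
  congr 2
  omega

theorem run_pw {k l : ℕ} (g : Agsm k l) (s : Fin g.n) (u : List (Fin k)) (m : ℕ) :
    g.run s (pw u m) = (fun q => g.run q u)^[m] s := by
  induction m generalizing s with
  | zero => rfl
  | succ m ih => rw [pw_succ, run_append, ih]; rfl

/-- A bound for the length of a single output. -/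
def maxOut {k l : ℕ} (g : Agsm k l) : ℕ := ∑ q, ∑ x, (g.h q x).length

theorem out_length {k l : ℕ} (g : Agsm k l) (s : Fin g.n) (u : List (Fin k)) :
    (g.out s u).length ≤ u.length * maxOut g := by
  induction u generalizing s with
  | nil => simp [Agsm.out]
  | cons x u ih =>
    have h1 : (g.h s x).length ≤ maxOut g := by
      unfold maxOut
      calc (g.h s x).length ≤ ∑ x, (g.h s x).length :=
            Finset.single_le_sum (f := fun x => (g.h s x).length) (fun _ _ => Nat.zero_le _)
              (Finset.mem_univ x)
        _ ≤ _ := Finset.single_le_sum (f := fun q => ∑ x, (g.h q x).length)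
              (fun _ _ => Nat.zero_le _) (Finset.mem_univ s)
    have := ih (g.t s x)
    simp only [Agsm.out, List.length_append, List.length_cons]
    nlinarith

theorem pump {k l : ℕ} (g : Agsm k l) (s : Fin g.n) (u : List (Fin k)) :
    ∃ (s' : Fin g.n) (α γ : List (Fin l)),
      γ.length ≤ u.length * (g.n.factorial * maxOut g) ∧
      ∀ m, g.run s (pw u (g.n + g.n.factorial * m)) = s' ∧
        g.out s (pw u (g.n + g.n.factorial * m)) = α ++ pw γ m := by
  refine ⟨g.run s (pw u g.n), g.out s (pw u g.n),
    g.out (g.run s (pw u g.n)) (pw u g.n.factorial), ?_, ?_⟩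
  · refine (out_length g _ _).trans ?_
    rw [pw_length]
    apply le_of_eq; ring
  · have hr : ∀ m, g.run s (pw u (g.n + g.n.factorial * m)) = g.run s (pw u g.n) := by
      intro m
      rw [run_pw, run_pw, iterate_period]
    intro m
    refine ⟨hr m, ?_⟩
    induction m with
    | zero => simp
    | succ m ih =>
      have h1 : g.n + g.n.factorial * (m + 1) = (g.n + g.n.factorial * m) + g.n.factorial := by ring
      rw [h1, pw_add, out_append, ih, hr m, pw_add _ m 1, pw_one, List.append_assoc]

end Pool.Agent.V11232.CT
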