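import Pool.Agent.V11232.CT.Code

namespace Pool.Agent.V11232.CT

/-- Indices: agsms with output alphabet of size 3. -/
abbrev Idx : Type := Σ k, Agsm k 3

/-- Agsms as plain data. -/
def agsmData {k l : ℕ} (g : Agsm k l) : Σ n : ℕ, Fin n × (Fin n → Bool) ×
    (Fin n → Fin k → Fin n) × (Fin n → Fin k → List (Fin l)) :=
  ⟨g.n, g.q0, g.final, g.t, g.h⟩

theorem agsmData_inj {k l : ℕ} : Function.Injective (agsmData (k := k) (l := l)) := by
  intro g g' h
  cases g; cases g'
  simp only [agsmData, Sigma.mk.injEq] at h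
  obtain ⟨rfl, h⟩ := h
  simp only [heq_eq_eq, Prod.mk.injEq] at h
  obtain ⟨rfl, rfl, rfl, rfl⟩ := h
  rfl

instance {k l : ℕ} : Countable (Agsm k l) := agsmData_inj.countable

theorem exists_encI : ∃ f : Idx → ℕ, Function.Injective f := Countable.exists_injective_nat Idx

/-- A numbering of the indices. -/
noncomputable def encI : Idx → ℕ := Classical.choose exists_encI
theorem encI_inj : Function.Injective encI := Classical.choose_spec exists_encI

/-- The weight of an index. -/
def bound (i : Idx) : ℕ := i.2.n.factorial * maxOut i.2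

/-- The exponent of a letter of an index. -/
noncomputable def ff (i : Idx) (x : Fin i.1) : ℕ := Nat.pair (encI i) (Nat.pair x (bound i))

theorem ff_index {i j : Idx} {x : Fin i.1} {y : Fin j.1} (h : ff i x = ff j y) : i = j := by
  unfold ff at h
  exact encI_inj (Nat.pair_eq_pair.mp h).1

theorem ff_inj (i : Idx) : Function.Injective (ff i) := by
  intro x y h
  unfold ff at h
  exact Fin.ext (Nat.pair_eq_pair.mp (Nat.pair_eq_pair.mp h).2).1

theorem bound_le (i : Idx) (x : Fin i.1) : bound i ≤ ff i x :=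
  (Nat.right_le_pair _ _).trans (Nat.right_le_pair _ _)

/-- The generator. -/
inductive M0 : List (Fin 3) → Prop
  | nil : M0 []
  | step (i : Idx) (w : List (Fin i.1)) (hw : w ≠ [])
      (hf : i.2.final (i.2.run i.2.q0 w) = true) (ho : M0 (i.2.out i.2.q0 w)) :
      M0 (enc (w.map (ff i)))

theorem M0_code (i : Idx) (w : List (Fin i.1)) (hw : w ≠ []) :
    M0 (enc (w.map (ff i))) ↔
      (i.2.final (i.2.run i.2.q0 w) = true ∧ M0 (i.2.out i.2.q0 w)) := by
  constructor
  · intro h
    generalize hW : enc (w.map (ff i)) = W at h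
    cases h with
    | nil =>
      have : w.map (ff i) = [] := enc_inj (l' := []) hW
      simp at this; exact absurd this hw
    | step j v hv hf ho =>
      have h1 := enc_inj hW
      have hij : i = j := by
        cases w with
        | nil => exact absurd rfl hw
        | cons x w =>
          cases v with
          | nil => exact absurd rfl hv
          | cons y v =>
            simp only [List.map_cons, List.cons.injEq] at h1
            exact ff_index h1.1
      subst hij
      have : w = v := List.map_injective_iff.mpr (ff_inj i) h1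
      subst this
      exact ⟨hf, ho⟩
  · rintro ⟨hf, ho⟩; exact M0.step i w hw hf ho

theorem M0_good {W : List (Fin 3)} (h : M0 W) : Good W := by
  cases h with
  | nil => exact ⟨[], rfl⟩
  | step i w _ _ _ => exact ⟨_, rfl⟩

theorem enc_map_length (i : Idx) (w : List (Fin i.1)) :
    w.length * (bound i + 1) ≤ (enc (w.map (ff i))).length := by
  induction w with
  | nil => simp
  | cons x w ih =>
    rw [List.map_cons, enc_cons, List.length_append, List.length_cons]
    have h1 : (tok (ff i x)).length = 2 ^ (ff i x) + 2 := by simp [tok]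
    have h2 : ff i x < 2 ^ (ff i x) := Nat.lt_two_pow_self
    have h3 := bound_le i x
    rw [h1]
    nlinarith

/-- The main lemma: the generator cannot compare two counts. -/
theorem main_lemma : ∀ (N : ℕ) (A β B δ C : List (Fin 3)), β.length ≤ N →
    (∀ n, M0 (A ++ pw β n ++ B ++ pw δ n ++ C)) →
    ∃ m n, m ≠ n ∧ M0 (A ++ pw β m ++ B ++ pw δ n ++ C) := by
  intro N
  induction N with
  | zero =>
    intro A β B δ C hN h
    have hβ : β = [] := List.length_eq_zero_iff.mp (by omega)
    refine ⟨0, 1, by norm_num, ?_⟩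
    have := h 1
    rw [hβ, pw_nil] at this ⊢
    exact this
  | succ N ih =>
    intro A β B δ C hN h
    by_cases hβ : β = []
    · refine ⟨0, 1, by norm_num, ?_⟩
      have := h 1
      rw [hβ, pw_nil] at this ⊢
      exact this
    by_cases hδ : δ = []
    · refine ⟨1, 0, by norm_num, ?_⟩
      have := h 1
      rw [hδ, pw_nil] at this ⊢
      exact this
    obtain ⟨h2β, h2δ⟩ := both_mem A β B δ C hβ hδ (fun n => M0_good (h (n + 1)))
    obtain ⟨β1, β2, hβs⟩ := List.append_of_mem h2β
    obtain ⟨δ1, δ2, hδs⟩ := List.append_of_mem h2δ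
    have hβs' : β = (β1 ++ [2]) ++ β2 := by rw [hβs]; simp
    have hδs' : δ = (δ1 ++ [2]) ++ δ2 := by rw [hδs]; simp
    -- normal form
    have hform : ∀ m n, A ++ pw β (m + 1) ++ B ++ pw δ (n + 1) ++ C =
        (A ++ β1 ++ [2]) ++ pw (β2 ++ (β1 ++ [2])) m ++ (β2 ++ B ++ δ1 ++ [2]) ++
          pw (δ2 ++ (δ1 ++ [2])) n ++ (δ2 ++ C) := by
      intro m n
      rw [hβs', hδs', pw_rot, pw_rot]; simp
    have h1 := h 2
    have hM1 : M0 ((A ++ β1) ++ ([2] ++ ((β2 ++ β1) ++ ([2] ++ ((β2 ++ B ++ δ1) ++ ([2] ++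
        ((δ2 ++ δ1) ++ ([2] ++ (δ2 ++ C))))))))) := by
      have := hform 1 1
      rw [this] at h1
      simpa using h1
    -- decode
    generalize hW : (A ++ β1) ++ ([2] ++ ((β2 ++ β1) ++ ([2] ++ ((β2 ++ B ++ δ1) ++ ([2] ++
        ((δ2 ++ δ1) ++ ([2] ++ (δ2 ++ C)))))))) = W at hM1
    cases hM1 with
    | nil => simp at hW
    | step i w hw hf ho =>
      obtain ⟨lA, r1, e1, hA, hr1⟩ := cut _ _ _ hW.symm
      obtain ⟨lβ, r2, e2, hlβ, hr2⟩ := cut _ _ _ hr1
      obtain ⟨lB, r3, e3, hlB, hr3⟩ := cut _ _ _ hr2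
      obtain ⟨lδ, lC, e4, hlδ, hlC⟩ := cut _ _ _ hr3
      subst e4 e3 e2
      obtain ⟨wA, v1, ew1, ewA, f1⟩ := List.map_eq_append_iff.mp e1
      obtain ⟨wβ, v2, ew2, ewβ, f2⟩ := List.map_eq_append_iff.mp f1
      obtain ⟨wB, v3, ew3, ewB, f3⟩ := List.map_eq_append_iff.mp f2
      obtain ⟨wδ, wC, ew4, ewδ, ewC⟩ := List.map_eq_append_iff.mp f3
      have hwA : wA ≠ [] := by
        rintro rfl
        rw [← ewA] at hA
        simp at hA
      have hwβ : wβ ≠ [] := by
        rintro rfl
        rw [← ewβ] at hlβ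
        simp at hlβ
      have hcode : ∀ m n, A ++ pw β (m + 1) ++ B ++ pw δ (n + 1) ++ C =
          enc ((wA ++ pw wβ m ++ wB ++ pw wδ n ++ wC).map (ff i)) := by
        intro m n
        rw [hform]
        simp only [List.map_append, pw_map, enc_append, enc_pw]
        rw [ewA, ewβ, ewB, ewδ, ewC, hA, hlβ, hlB, hlδ, hlC]
        simp [List.append_assoc]
      have hne : ∀ m n, wA ++ pw wβ m ++ wB ++ pw wδ n ++ wC ≠ [] := by
        intro m n; simp [hwA]
      have hstep : ∀ m n, M0 (A ++ pw β (m + 1) ++ B ++ pw δ (n + 1) ++ C) ↔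
          (i.2.final (i.2.run i.2.q0 (wA ++ pw wβ m ++ wB ++ pw wδ n ++ wC)) = true ∧
            M0 (i.2.out i.2.q0 (wA ++ pw wβ m ++ wB ++ pw wδ n ++ wC))) := by
        intro m n
        rw [hcode]; exact M0_code i _ (hne m n)
      obtain ⟨s1, α1, γ1, hl1, hp1⟩ := pump i.2 (i.2.run i.2.q0 wA) wβ
      obtain ⟨s2, α2, γ2, hl2, hp2⟩ := pump i.2 (i.2.run s1 wB) wδ
      have hPpos : 0 < i.2.n.factorial := Nat.factorial_pos _
      have hrun : ∀ m n, i.2.run i.2.q0 (wA ++ pw wβ (i.2.n + i.2.n.factorial * m) ++ wB ++ pw wδ (i.2.n + i.2.n.factorial * n) ++ wC)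
          = i.2.run s2 wC := by
        intro m n
        rw [run_append, run_append, run_append, run_append, (hp1 m).1, (hp2 n).1]
      have hout : ∀ m n, i.2.out i.2.q0 (wA ++ pw wβ (i.2.n + i.2.n.factorial * m) ++ wB ++ pw wδ (i.2.n + i.2.n.factorial * n) ++ wC)
          = (i.2.out i.2.q0 wA ++ α1) ++ pw γ1 m ++ (i.2.out s1 wB ++ α2) ++ pw γ2 n ++
            i.2.out s2 wC := by
        intro m n
        simp only [out_append, run_append, (hp1 m).1, (hp1 m).2, (hp2 n).1, (hp2 n).2,
          List.append_assoc]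
      have hlen : γ1.length ≤ N := by
        have h3 : (enc (wβ.map (ff i))).length = β.length := by
          rw [ewβ, hlβ, hβs']; simp; omega
        have h4 := enc_map_length i wβ
        have h5 : 0 < wβ.length := List.length_pos_iff.mpr hwβ
        have h6 : γ1.length ≤ wβ.length * bound i := hl1
        have h7 : wβ.length * (bound i + 1) = wβ.length * bound i + wβ.length := by ring
        omega
      have hall : ∀ n, M0 ((i.2.out i.2.q0 wA ++ α1) ++ pw γ1 n ++ (i.2.out s1 wB ++ α2) ++
          pw γ2 n ++ i.2.out s2 wC) := by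
        intro n
        rw [← hout]
        exact ((hstep _ _).mp (h (i.2.n + i.2.n.factorial * n + 1))).2
      obtain ⟨m, n, hmn, hM⟩ := ih _ _ _ _ _ hlen hall
      refine ⟨i.2.n + i.2.n.factorial * m + 1, i.2.n + i.2.n.factorial * n + 1, ?_, ?_⟩
      · intro heq
        apply hmn
        have : i.2.n.factorial * m = i.2.n.factorial * n := by omega
        exact Nat.eq_of_mul_eq_mul_left hPpos this
      · refine (hstep _ _).mpr ⟨?_, ?_⟩
        · have := ((hstep _ _).mp (h (i.2.n + i.2.n.factorial * 0 + 1))).1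
          rw [hrun] at this ⊢
          exact this
        · rw [hout]; exact hM

/-- The generator as a language. -/
def LM0 : Language (Fin 3) := {w | M0 w}

/-- The family. -/
def FF : Fam := fun k => {L | ∃ g : Agsm k 3, L = g.inv LM0}

theorem closed_FF : Closed opAgsm FF := by
  rintro l k M L ⟨g, rfl⟩ ⟨g', rfl⟩
  exact ⟨comp g' g, (comp_inv g' g LM0).symm⟩

theorem LM0_mem : LM0 ∈ FF 3 := by
  refine ⟨homG (fun x => [x]), ?_⟩
  rw [homG_inv]
  ext w
  change M0 w ↔ M0 (w.flatMap fun x => [x])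
  simp

theorem principal_agsm : Principal opAgsm FF :=
  ⟨closed_FF, 3, LM0, LM0_mem, fun _ _ ⟨g, hg⟩ => Reach.step Reach.base ⟨g, hg⟩⟩

/-- The regular set of nonempty words, or of all words. -/
def nonemptyDFA (k : ℕ) (b : Bool) : DFA (Fin k) Bool where
  step _ _ := true
  start := b
  accept := {s | s = true}

theorem nonemptyDFA_evalFrom (k : ℕ) (b : Bool) (w : List (Fin k)) :
    (nonemptyDFA k b).evalFrom true w = true := by
  induction w with
  | nil => rfl
  | cons x w ih => exact ih

theorem nonemptyDFA_accepts (k : ℕ) (b : Bool) (w : List (Fin k)) :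
    w ∈ (nonemptyDFA k b).accepts ↔ (w ≠ [] ∨ b = true) := by
  rw [DFA.mem_accepts]
  cases w with
  | nil => simp [DFA.eval, DFA.evalFrom, nonemptyDFA]
  | cons x w =>
    have : (nonemptyDFA k b).eval (x :: w) = true := nonemptyDFA_evalFrom k b w
    rw [this]; simp [nonemptyDFA]

theorem principal_C : Principal opC FF := by
  refine ⟨closed_of_agsm _ closed_FF, 3, LM0, LM0_mem, ?_⟩
  rintro k L ⟨g, rfl⟩
  let i : Idx := ⟨k, g⟩
  let φ : Fin k → List (Fin 3) := fun x => tok (ff i x)
  have hφ : ∀ w : List (Fin k), w.flatMap φ = enc (w.map (ff i)) := by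
    intro w; simp only [enc, φ, List.flatMap_map]; rfl
  let R : Language (Fin k) := (nonemptyDFA k (g.final g.q0)).accepts
  have hR : R.IsRegular := ⟨Bool, inferInstance, nonemptyDFA k (g.final g.q0), rfl⟩
  have h1 : Reach opC LM0 k {w : List (Fin k) | w.flatMap φ ∈ LM0} :=
    Reach.step Reach.base (opC.invHom φ LM0 _ rfl)
  have h2 := Reach.step h1 (opC.interReg _ R hR)
  have : g.inv LM0 = {w : List (Fin k) | w.flatMap φ ∈ LM0} ⊓ R := by
    ext w
    change (g.final (g.run g.q0 w) = true ∧ M0 (g.out g.q0 w)) ↔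
      (M0 (w.flatMap φ) ∧ w ∈ R)
    rw [hφ, nonemptyDFA_accepts]
    by_cases hw : w = []
    · subst hw
      simp [Agsm.run, Agsm.out, M0.nil]
    · rw [M0_code i w hw]
      simp [hw, i]
  rw [this]; exact h2

/-! Nonregularity of the generator. -/

/-- An agsm with `n + 1` states, all final, without output. -/
def silent (n : ℕ) : Agsm 1 3 where
  n := n + 1
  q0 := 0
  final _ := true
  t _ _ := 0
  h _ _ := []

theorem tok_mem (n : ℕ) : M0 (tok (ff ⟨1, silent n⟩ 0)) := by
  have := M0.step ⟨1, silent n⟩ [0] (by simp) rfl (by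
    change M0 ([] ++ [])
    exact M0.nil)
  simpa [enc] using this

theorem ff_silent_inj : Function.Injective (fun n => ff ⟨1, silent n⟩ 0) := by
  intro m n h
  have h1 : (⟨1, silent m⟩ : Idx) = ⟨1, silent n⟩ := ff_index h
  have h2 : silent m = silent n := by simpa using h1
  have h3 : (silent m).n = (silent n).n := by rw [h2]
  simpa [silent] using h3

theorem nonregular : ¬ LM0.IsRegular := by
  rintro ⟨σ, _, D, hD⟩
  obtain ⟨a, b, hne, hab⟩ : ∃ a b : ℕ, a ≠ b ∧
      D.eval (1 :: List.replicate a 0) = D.eval (1 :: List.replicate b 0) := by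
    obtain ⟨a, b, h1, h2⟩ := Finite.exists_ne_map_eq_of_infinite
      (fun j : ℕ => D.eval (1 :: List.replicate j 0))
    exact ⟨a, b, h1, h2⟩
  wlog hlt : a < b generalizing a b
  · exact this b a hne.symm hab.symm (by omega)
  have hshift : ∀ r, M0 (1 :: (List.replicate (a + r) 0 ++ [2])) →
      M0 (1 :: (List.replicate (b + r) 0 ++ [2])) := by
    intro r hr
    have e : ∀ j, (1 :: (List.replicate (j + r) (0 : Fin 3) ++ [2])) =
        (1 :: List.replicate j 0) ++ (List.replicate r 0 ++ [2]) := by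
      intro j; rw [List.replicate_add, List.append_assoc]; rfl
    have hr' : (1 :: List.replicate a (0 : Fin 3)) ++ (List.replicate r 0 ++ [2]) ∈ LM0 := by
      rw [← e]; exact hr
    rw [← hD, DFA.mem_accepts, DFA.eval, DFA.evalFrom_of_append] at hr'
    have hgoal : (1 :: List.replicate b (0 : Fin 3)) ++ (List.replicate r 0 ++ [2]) ∈ LM0 := by
      rw [← hD, DFA.mem_accepts, DFA.eval, DFA.evalFrom_of_append]
      have : D.evalFrom D.start (1 :: List.replicate a 0) =
        D.evalFrom D.start (1 :: List.replicate b 0) := hab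
      rw [← this]; exact hr'
    rw [← e] at hgoal; exact hgoal
  have hpow : ∀ L, M0 (1 :: (List.replicate L 0 ++ [2])) → ∃ e, L = 2 ^ e := by
    intro L hL
    obtain ⟨l, hl⟩ := M0_good hL
    obtain ⟨e, he⟩ := kap_good (M0_good hL) (by simp)
    refine ⟨e, ?_⟩
    have h1 : (1 :: (List.replicate L (0 : Fin 3) ++ [2])) = (1 :: List.replicate L 0) ++ [2] := by
      simp
    rw [h1, kap_append_of_not_mem (by simp [List.mem_replicate])] at he
    simp [kap, List.findIdx_cons] at he
    omega
  obtain ⟨n, hn⟩ : ∃ n, a ≤ ff ⟨1, silent n⟩ 0 := by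
    have hinf := Set.infinite_range_of_injective ff_silent_inj
    obtain ⟨y, ⟨n, rfl⟩, hy⟩ := hinf.exists_gt a
    exact ⟨n, le_of_lt hy⟩
  set e := ff ⟨1, silent n⟩ 0 with he
  have h0 := tok_mem n
  rw [← he] at h0
  have h2e : e < 2 ^ e := Nat.lt_two_pow_self
  have h1 := hshift (2 ^ e - a) (by
    have : a + (2 ^ e - a) = 2 ^ e := by omega
    rw [this]; exact h0)
  obtain ⟨e1, he1⟩ := hpow _ h1
  have h2 := hshift (b + (2 ^ e - a) - a) (by
    have : a + (b + (2 ^ e - a) - a) = b + (2 ^ e - a) := by omega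
    rw [this]; exact h1)
  obtain ⟨e2, he2⟩ := hpow _ h2
  apply no_ap (c := 2 ^ e) (d := b - a) (by omega) rfl (e1 := e1) (e2 := e2)
  · omega
  · omega

end Pool.Agent.V11232.CT
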